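import Pool.Agent.R460.SC.Fb
import Pool.Agent.Run7.h702.CL.Rat
import Pool.Agent.Run7.h702.AT.G

set_option autoImplicit false

/-!
# Prime values of `k² + 3 k + c` (and of `a x² + b x + c`) for all the constant terms for which the discriminant is a term
of a Collatz trajectory, and for `c = ⌊u m / v⌋ + t` with many rational numbers `u / v` at once

Fix integers `a > 0` and `b`; the family `k² + 3 k + c` is the case `a = 1`, `b = 3`.

(1), (2) Let `F` be any function which tends to infinity. For almost all `m` (natural density) the trajectory of `m` under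
the Collatz map takes a value smaller than `F m`, and for *every* term `t` before the first such value and *every*
nonzero integer `|u| ≤ (log t)^U` the polynomial `f(x) = a x² + b x + c`, `c ≥ 1`, of discriminant `-u t`, if it exists,
satisfies the formula of Hardy and Littlewood at its own scale: the product which defines the constant `S(f)` converges
and the number of the `x ≤ y` for which `f(x)` is prime is `S(f) ∑_{x ≤ y} 1 / log f(x) + O(√c / (log c)^C)` for all
`y ≤ √c`. All but at most `K N / (log Y)^A` of the `m ≤ N` have this property up to the first value smaller than `Y`, for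
all `Y` and `N`.

(3) Let `R` be an *arbitrary* set of at most `(log N)^B` pairs `(u, v)` of coprime positive integers, which may depend on
`N`, with `v ≤ N ^ (1 - ρ)`, `u ≤ (u N / v) ^ (1 / 2 - ρ)`, and at most `(log N)^B` divisors of `u`. For all but at most
`N / (log N)^A` of the integers `m ≤ N`, *all* the positive numbers `c = ⌊u m / v⌋ + t`, `(u, v) ∈ R`, `|t| ≤ (log N)^B`,
satisfy the same conclusion. The only other restriction is that the discriminant `b² - 4 a c` is not `-4 a u m / v` (for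
`b = 0` this excludes the exact multiples `c = u m / v`). Example: all the fractions `u / v` composed of the primes of a
fixed finite set, such as `2^i / 3^j` and `3^j / 2^i`, in the range above: almost every `m` has the property for all the
`⌊2^i m / 3^j⌋ + t` at once.

Proof. Both parts use the class theorem for the moduli up to `X ^ (1 / 2 - ρ)` (`R460/SC`), passed to the own scale of `c`
(`Run7/h702/CL/Few`). (1), (2): it shows that the bad discriminants are rare in the residue classes modulo the powers of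
`3`, up to `exp (C √(log X))`; the mixing of the Syracuse random variables at fine scales and in natural density (starting
libraries `H499R2`, `R344/TH`) carries this from the lowest scales to all scales (`Run7/h702/AT`). (3): the class theorem
is used in all the `v` classes `⌊u w / v⌋ + t` modulo `u` outside the few for which the greatest common divisor of `u` and
the discriminant is large; these are counted through the divisors of `u` (`Run7/h702/CL/Rat`).
-/

namespace Pool.Agent.Results.MP_d57abb_nt.CollatzTerms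

open Finset Filter Topology

/-- The polynomial. -/
def f (a b c : ℤ) (m : ℕ) : ℤ := a * (m : ℤ) ^ 2 + b * (m : ℤ) + c

/-- The number of the roots of `f` modulo `p`. -/
def omega (a b c : ℤ) (p : ℕ) : ℕ := ((range p).filter (fun m : ℕ => (p : ℤ) ∣ f a b c m)).card

/-- The product which defines the constant of `f`, over the primes `p ≤ z`. -/
noncomputable def product (a b c : ℤ) (z : ℕ) : ℝ :=
  ∏ p ∈ (Icc 1 z).filter Nat.Prime, (1 - (omega a b c p : ℝ) / p) / (1 - 1 / (p : ℝ))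

/-- The product over all the primes, in increasing order, converges to `S`. -/
def IsConstant (a b c : ℤ) (S : ℝ) : Prop := Tendsto (product a b c) atTop (𝓝 S)

/-- The number of the `m`, `1 ≤ m ≤ y`, for which `f(m)` is a prime. -/
def count (a b c : ℤ) (y : ℕ) : ℕ := ((Icc 1 y).filter (fun m : ℕ => (f a b c m).toNat.Prime)).card

/-- The conclusion for one constant term `c ≥ 1`. -/
def Good (a b : ℤ) (C : ℕ) (c : ℤ) : Prop :=
  ((∀ p : ℕ, p.Prime → ∃ m : ℕ, ¬ (p : ℤ) ∣ f a b c m) →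
    ∃ m : ℕ, 1 ≤ m ∧ (m : ℤ) ^ 2 ≤ 2 * c ∧ (f a b c m).toNat.Prime) ∧
  ∃ S : ℝ, IsConstant a b c S ∧ ∀ y : ℕ, (y : ℤ) ^ 2 ≤ c →
    |(count a b c y : ℝ) - S * ∑ m ∈ Icc 1 y, 1 / Real.log ((f a b c m : ℤ) : ℝ)| ≤ Real.sqrt c / Real.log c ^ C

/-- `u / v` is a fraction in lowest terms, `v ≤ N ^ (1 - ρ)`, `u ≤ (u N / v) ^ (1 / 2 - ρ)`, and `u` has at most `V`
divisors. -/
def Usable (N : ℕ) (ρ V : ℝ) (u v : ℕ) : Prop :=
  1 ≤ u ∧ 1 ≤ v ∧ Nat.Coprime u v ∧ (v : ℝ) ≤ (N : ℝ) ^ (1 - ρ) ∧ (u : ℝ) ≤ ((u : ℝ) * N / v) ^ (1 / 2 - ρ) ∧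
    (u.divisors.card : ℝ) ≤ V

open Classical in
/-- The number of the `m`, `1 ≤ m ≤ N`, for which there are `(u, v)` in `R`, usable, and an integer `t`, `|t| ≤ V`,
such that `c = ⌊u m / v⌋ + t` (the division is that of the natural numbers) is positive, `v (b² - 4 a c) ≠ -4 a u m`, and
the conclusion fails. -/
noncomputable def exceptions (a b : ℤ) (C N : ℕ) (ρ V : ℝ) (R : Finset (ℕ × ℕ)) : ℕ :=
  ((Icc 1 N).filter (fun m : ℕ => ∃ u v, (u, v) ∈ R ∧ Usable N ρ V u v ∧ ∃ t c : ℤ, |(t : ℝ)| ≤ V ∧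
    c = ((u * m / v : ℕ) : ℤ) + t ∧ 1 ≤ c ∧ (v : ℤ) * (b ^ 2 - 4 * a * c) ≠ -4 * a * (u * m) ∧ ¬ Good a b C c)).card

/-- the conclusion at the scale `X` -/
def GoodX (a b : ℤ) (C X : ℕ) (c : ℤ) : Prop :=
  ((∀ p : ℕ, p.Prime → ∃ m : ℕ, ¬ (p : ℤ) ∣ f a b c m) →
    ∃ m : ℕ, 1 ≤ m ∧ m ^ 2 ≤ X ∧ (f a b c m).toNat.Prime) ∧
  ∃ S : ℝ, IsConstant a b c S ∧ ∀ y : ℕ, y ^ 2 ≤ X →
    |(count a b c y : ℝ) - S * ∑ m ∈ Icc 1 y, 1 / Real.log ((f a b c m : ℤ) : ℝ)| ≤ Real.sqrt X / Real.log X ^ C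

theorem few (a b : ℤ) (ha : 0 < a) (C : ℕ) : Run7.h702.CL.Few (1 / 2) (fun c => (-4 * a) * c + b ^ 2)
    (fun X c => 1 ≤ c ∧ ¬ GoodX a b C X c) := by
  classical
  intro ρ hρ A T
  obtain ⟨X₀, h0⟩ := Pool.Agent.R460.SC.fin_true (b := b) ha ρ hρ A C T
  refine ⟨X₀, fun X hX q hq1 hqX hτ c₀ hb => ?_⟩
  have hb' : (Int.gcd (b ^ 2 - 4 * a * c₀) q : ℝ) ≤ Real.log X ^ T := by
    have e : b ^ 2 - 4 * a * c₀ = (-4 * a) * c₀ + b ^ 2 := by ring
    rw [e]
    exact hb
  refine le_trans ?_ (h0 X hX q hq1 hqX hτ c₀ hb')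
  have hf : ∀ (c : ℤ) (t : ℕ), Pool.Agent.R460.SB.fv (-a) (-b) c t = f a b c t := by
    intro c t
    unfold Pool.Agent.R460.SB.fv f
    ring
  have hr : ∀ (c : ℤ) (p : ℕ), Pool.Agent.H373R2.T7.nuB (Pool.Agent.R460.SB.QS (-a) (-b) c) p = omega a b c p := by
    intro c p
    unfold omega Pool.Agent.H373R2.T7.nuB Pool.Agent.R460.SB.QS
    have e : ∀ m : ℕ, ((p : ℤ) ∣ c - (-a * (m : ℤ) ^ 2 + -b * (m : ℤ))) ↔ (p : ℤ) ∣ f a b c m := by
      intro m
      have e1 := hf c m
      unfold Pool.Agent.R460.SB.fv at e1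
      rw [e1]
    congr 1
    ext m
    simp only [mem_filter, e]
  have hs : ∀ c : ℤ, (fun z : ℕ => Pool.Agent.R460.SB.Sz (-a) (-b) c z) = product a b c := by
    intro c
    funext z
    rw [Pool.Agent.R460.SB.Sz_prod]
    unfold product Pool.Agent.H373R2.T7.pz
    refine prod_congr rfl fun p _ => ?_
    rw [hr]
  have hg : ∀ c : ℤ, GoodX a b C X c ↔ Pool.Agent.R460.SC.GoodT a b C X c := by
    intro c
    unfold GoodX Pool.Agent.R460.SC.GoodT count IsConstant
    simp only [hs, hf]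
  unfold Run7.h702.CL.num
  apply Nat.cast_le.2
  apply card_le_card
  intro c hc
  rw [Run7.h702.CL.mem_bad, abs_le] at hc
  rw [mem_filter, mem_Icc, ← hg]
  exact ⟨⟨hc.2.2.1, hc.1.2⟩, hc.2.1, hc.2.2.2⟩

theorem own (a b : ℤ) (ha : 0 < a) (C : ℕ) : Run7.h702.CL.Few (1 / 2) (fun c => (-4 * a) * c + b ^ 2)
    (fun _ c => ¬ (1 ≤ c → Good a b C c)) := by
  refine Run7.h702.CL.Few.own (by norm_num) (few a b ha (C + 1)) (fun c => 1 ≤ c → Good a b C c) 100 ?_
  intro X c hX hcX hXc hng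
  rw [Classical.not_imp] at hng
  obtain ⟨hc1, hng⟩ := hng
  refine ⟨hc1, fun hg => hng ?_⟩
  obtain ⟨g1, K, g2, g3⟩ := hg
  rw [abs_of_pos (by omega)] at hcX hXc
  have hcr : (c : ℝ) ≤ X := by exact_mod_cast hcX
  have hXr : (X : ℝ) ≤ 2 * c := by exact_mod_cast hXc
  have hX100 : (100 : ℝ) ≤ X := by exact_mod_cast hX
  have hc50 : (50 : ℝ) ≤ c := by linarith
  refine ⟨fun hp => ?_, K, g2, fun y hy => ?_⟩
  · obtain ⟨t, ht1, ht2, ht3⟩ := g1 hp
    have ht2' : (t : ℤ) ^ 2 ≤ X := by exact_mod_cast ht2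
    exact ⟨t, ht1, by linarith, ht3⟩
  refine (g3 y ?_).trans ?_
  · have : (y : ℤ) ^ 2 ≤ X := hy.trans hcX
    exact_mod_cast this
  have hla : 2 ≤ Real.log c := by
    rw [Real.le_log_iff_exp_le (by linarith)]
    have h1 : Real.exp 2 = Real.exp 1 * Real.exp 1 := by rw [← Real.exp_add]; norm_num
    have h2 := Real.exp_one_lt_d9
    have h3 := Real.exp_pos 1
    rw [h1]
    nlinarith
  have hlX : Real.log c ≤ Real.log X := Real.log_le_log (by linarith) hcr
  have hs : Real.sqrt X ≤ 2 * Real.sqrt c := by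
    have h1 : Real.sqrt X ≤ Real.sqrt (2 ^ 2 * c) := Real.sqrt_le_sqrt (by linarith)
    rw [Real.sqrt_mul (by norm_num), Real.sqrt_sq (by norm_num)] at h1
    exact h1
  calc Real.sqrt X / Real.log X ^ (C + 1) ≤ (2 * Real.sqrt c) / Real.log c ^ (C + 1) := by
        apply div_le_div₀ (by positivity) hs (by positivity)
        exact pow_le_pow_left₀ (by linarith) hlX _
    _ = (Real.sqrt c / Real.log c ^ C) * (2 / Real.log c) := by
        rw [pow_succ]
        have : Real.log c ≠ 0 := by linarith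
        field_simp
    _ ≤ (Real.sqrt c / Real.log c ^ C) * 1 := by
        apply mul_le_mul_of_nonneg_left _ (by positivity)
        rw [div_le_one (by linarith)]
        exact hla
    _ = _ := mul_one _

theorem own' (a b : ℤ) (ha : 0 < a) (C : ℕ) : Run7.h702.CL.Few (1 / 2) (fun c => b ^ 2 - 4 * a * c)
    (fun _ c => ¬ (1 ≤ c → Good a b C c)) := by
  have h := own a b ha C
  have e : (fun c : ℤ => (-4 * a) * c + b ^ 2) = fun c => b ^ 2 - 4 * a * c := by
    funext c
    ring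
  rwa [e] at h

/-- The Collatz map. -/
def collatz (n : ℕ) : ℕ := if n % 2 = 0 then n / 2 else 3 * n + 1

/-- The Collatz trajectory of `m` takes a value smaller than `Y`, and for all its terms `t = T^j m` before some such value
and all `0 < |u| ≤ (log t)^U` the polynomial `a x² + b x + c`, `c ≥ 1`, of discriminant `-u t`, if it exists, satisfies the
conclusion. -/
def AllTermsGood (a b : ℤ) (C U : ℕ) (Y : ℝ) (m : ℕ) : Prop :=
  ∃ k : ℕ, ((collatz^[k] m : ℕ) : ℝ) < Y ∧ ∀ j < k, ∀ u c : ℤ, u ≠ 0 →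
    (u.natAbs : ℝ) ≤ Real.log (collatz^[j] m : ℕ) ^ U → 4 * a * c - b ^ 2 = u * (collatz^[j] m : ℕ) →
      1 ≤ c → Good a b C c

theorem rationals (a b : ℤ) (ha : 0 < a) (ρ : ℝ) (hρ : 0 < ρ) (hρ' : ρ ≤ 1 / 2) (A B C : ℕ) :
    ∃ N₀ : ℕ, ∀ N : ℕ, N₀ ≤ N → ∀ R : Finset (ℕ × ℕ), (R.card : ℝ) ≤ Real.log N ^ B →
      (exceptions a b C N ρ (Real.log N ^ B) R : ℝ) ≤ N / Real.log N ^ A := by
  classical
  obtain ⟨N₀, h⟩ := Run7.h702.CL.rat (-4 * a) (b ^ 2) (by omega) (own a b ha C) ρ hρ hρ' A B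
  refine ⟨N₀, fun N hN R hR => le_trans ?_ (h N hN R hR)⟩
  unfold exceptions
  apply Nat.cast_le.2
  apply card_le_card
  intro m hm
  rw [mem_filter] at hm ⊢
  obtain ⟨hm1, u, v, huv, ⟨k1, k2, k3, k4, k5, k6⟩, t, c, k7, hc, k8, k9, k10⟩ := hm
  have hfl : Run7.h702.CL.fl u v t m = c := by rw [hc]; rfl
  refine ⟨hm1, (u, v), huv, k1, k2, k3, k4, k5, k6, t, k7, ?_, ?_⟩
  · simp only [hfl]
    intro h0
    apply k9
    linear_combination h0
  · simp only [hfl]
    exact fun hc' => k10 (hc' k8)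

open Classical in
/-- (1) All but at most `K N / (log Y)^A` of the `m ≤ N` satisfy: the Collatz trajectory of `m` takes a value smaller than
`Y`, and the conclusion is true for the discriminants `-u t`, `0 < |u| ≤ (log t)^U`, for all the terms `t` before it.
(2) For every `F → ∞` this is true for almost all `m`, with `Y = F m`. (3) Rational multiples of `m`. -/
theorem result (a b : ℤ) (ha : 0 < a) :
    (∀ A C U : ℕ, ∃ K : ℝ, 0 < K ∧ ∀ Y : ℝ, 2 ≤ Y → ∀ N : ℕ,
      (((Icc 1 N).filter (fun m : ℕ => ¬ AllTermsGood a b C U Y m)).card : ℝ) ≤ K * N / Real.log Y ^ A) ∧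
    (∀ (C U : ℕ) (F : ℕ → ℝ), Tendsto F atTop atTop →
      Tendsto (fun N : ℕ => (((Icc 1 N).filter (fun m : ℕ => AllTermsGood a b C U (F m) m)).card : ℝ) / N) atTop
        (𝓝 1)) ∧
    (∀ ρ : ℝ, 0 < ρ → ρ ≤ 1 / 2 → ∀ A B C : ℕ, ∃ N₀ : ℕ, ∀ N : ℕ, N₀ ≤ N →
      ∀ R : Finset (ℕ × ℕ), (R.card : ℝ) ≤ Real.log N ^ B →
        (exceptions a b C N ρ (Real.log N ^ B) R : ℝ) ≤ N / Real.log N ^ A) := by
  refine ⟨fun A C U => ?_, fun C U F hF => ?_, fun ρ hρ hρ' A B C => rationals a b ha ρ hρ hρ' A B C⟩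
  · exact Run7.h702.AT.all_disc (θ := 1 / 2) (by norm_num) ha.ne' (own' a b ha C) A U
  · exact Run7.h702.AT.all_disc_almost (θ := 1 / 2) (by norm_num) ha.ne' (own' a b ha C) U F hF

end Pool.Agent.Results.MP_d57abb_nt.CollatzTerms
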