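import Pool.Agent.Run7.h536.CE9

set_option autoImplicit false

/-!
# Primes `a k² + b k + c` for `k` with restricted digits: thin `a`, ALL `b`, ALL weights, almost all `c`

The problem is about the primes `k² + 3 k + 1` with `k ≤ 10^n`. Here `k` is restricted to the integers below `g^n` whose
digits in base `g` satisfy arbitrary restrictions (the `i`-th digit belongs to a set `D i` with at least two elements), a
set `S` which may have only `2^n` elements. Let `a` run through a family of integers of size at most `H` (a size between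
`g^(n/r)` and `g^(r n)`) whose additive energy of some order is minimal up to a power of `n`. For almost all `a` of the
family, UNIFORMLY in ALL `b` with `|b| ≤ B H g^n`, ALL weights `w` on `S` bounded by a power of `n` (for example the
indicator of a residue class, of the primes, or an arbitrary bounded function), for almost all constant terms
`|c| ≤ B H g^(2n)` and all `M`, the sum of `w(k) Λ(|a k² + b k + c|)` over the `k ∈ S`, `k < M`, is the sum of `w(k)` times
the sieve model of the von Mangoldt function, up to `|S| / n^U`. The numbers `b` and the weights may depend on `a`.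

Proof. A new bound for the additive energy of the values of polynomials with thin leading and arbitrary other coefficients
at digit-restricted integers (`Run7.h536.CE1` to `CE4`), with the circle method for correlations of primes with families of
nearly minimal energy (starting files, `TH872.Sq`, `R459.fam_near_fin`), a maximal choice of the bad `b` and `w` and a grid
for the initial segments (`CE5`, `CE6`).
-/

namespace Pool.Agent.Results.MP_d57abb_nt.DigitsAllMiddleCoefficients

open Finset Polynomial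

/-- The additive energy of order `h` of a family of integers: the number of the solutions of
`v(i_1) + ⋯ + v(i_h) = v(j_1) + ⋯ + v(j_h)`. -/
noncomputable def energy (h : ℕ) {ι : Type} [Fintype ι] (v : ι → ℤ) : ℕ :=
  Nat.card {q : (Fin h → ι) × (Fin h → ι) // ∑ j, v (q.1 j) = ∑ j, v (q.2 j)}

/-- The integers `k < g ^ n` whose `i`-th digit in base `g` belongs to `D i`, for all `i < n`. -/
def restricted (g : ℕ) (D : ℕ → Finset ℕ) (n : ℕ) : Finset ℕ :=
  (range (g ^ n)).filter (fun t : ℕ => ∀ i < n, t / g ^ i % g ∈ D i)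

/-- The sieve model of the von Mangoldt function: `∏_{p ≤ z} (1 - 1/p)⁻¹` for the integers without prime factors `p ≤ z`,
and `0` for the others. -/
noncomputable def model (z : ℕ) (x : ℤ) : ℝ :=
  if ∀ p ∈ (Icc 1 z).filter Nat.Prime, ¬ (p : ℤ) ∣ x then (∏ p ∈ (Icc 1 z).filter Nat.Prime, (1 - 1 / (p : ℝ)))⁻¹ else 0

/-- Functions between `log` on the primes and the von Mangoldt function. -/
def PrimeLike (L : ℕ → ℝ) : Prop :=
  ∀ n, (if n.Prime then Real.log n else 0) ≤ L n ∧ L n ≤ ArithmeticFunction.vonMangoldt n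

open Classical in
/-- The number of the integers `c`, `|c| ≤ N`, such that for some `M` the sum of `w(k) (L(|x|) - model(x))`,
`x = a k² + b k + c`, over the `k ∈ S` with `k < M` exceeds `δ` in absolute value. -/
noncomputable def exceptions (N z : ℕ) (S : Finset ℕ) (L : ℕ → ℝ) (δ : ℝ) (a b : ℤ) (w : ℕ → ℝ) : ℕ :=
  ((Icc (-(N : ℤ)) N).filter (fun c : ℤ => ∃ M : ℕ,
    δ < |∑ k ∈ S.filter (fun k => k < M), w k *
      (L (a * (k : ℤ) ^ 2 + b * k + c).natAbs - model z (a * (k : ℤ) ^ 2 + b * k + c))|)).card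

lemma quad_degree (a b : ℤ) : (Polynomial.C a * Polynomial.X ^ 2 + Polynomial.C b * Polynomial.X : ℤ[X]).natDegree ≤ 2 := by
  compute_degree

open Classical in
/-- Fix the base `g ≥ 2` and `h`, `r`, `B`, `C`, `T`, `U`. There is `B₀` such that for all `E` and all large `n`: let
`H ≤ g ^ (r n)`, `g ^ n ≤ H ^ r`, let `D i`, `i < n`, be ARBITRARY sets of at least two digits, `S` the set of the
`k < g ^ n` with the `i`-th digit in `D i`, `a_i`, `i ∈ ι`, a family of integers with `|a_i| ≤ B H` whose energy of order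
`h` is at most `n ^ C |ι| ^ (2h) / H`, `z` an integer between `n ^ B₀` and `n ^ E`, and `L` a function between `log` on the
primes and the von Mangoldt function. Then for all but at most `|ι| / n ^ U` of the `i ∈ ι`: for ALL integers `b` with
`|b| ≤ B H g^n` and ALL weights `w` with `|w| ≤ n ^ T`, for all but at most `H g^(2n) / n ^ U` of the integers `c` with
`|c| ≤ B H g^(2n)`: for ALL `M` the sum of `w(k) (L(|x|) - model(x))`, `x = a_i k² + b k + c`, over the `k ∈ S` with `k < M`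
is at most `|S| / n ^ U` in absolute value. -/
theorem result (g : ℕ) (hg : 2 ≤ g) (h r B C T U : ℕ) (hh : 1 ≤ h) (hr : 1 ≤ r) (hB : 1 ≤ B) :
    ∃ B₀ : ℕ, ∀ E : ℕ, ∃ n₀ : ℕ, ∀ n : ℕ, n₀ ≤ n → ∀ H : ℕ, H ≤ g ^ (r * n) → g ^ n ≤ H ^ r →
    ∀ D : ℕ → Finset ℕ, (∀ i < n, D i ⊆ range g ∧ 2 ≤ (D i).card) →
    ∀ (ι : Type) [Fintype ι] (a : ι → ℤ), (∀ i, |a i| ≤ B * H) →
    (energy h a : ℝ) * H ≤ (n : ℝ) ^ C * (Fintype.card ι : ℝ) ^ (2 * h) →
    ∀ z : ℕ, (n : ℝ) ^ B₀ ≤ z → (z : ℝ) ≤ (n : ℝ) ^ E → ∀ L : ℕ → ℝ, PrimeLike L →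
    ((univ.filter (fun i : ι => ∃ b : ℤ, ∃ w : ℕ → ℝ, |b| ≤ B * (H * (g : ℤ) ^ n) ∧ (∀ k, |w k| ≤ (n : ℝ) ^ T) ∧
      ((H * g ^ (2 * n) : ℕ) : ℝ) / (n : ℝ) ^ U <
        exceptions (B * (H * g ^ (2 * n))) z (restricted g D n) L ((restricted g D n).card / (n : ℝ) ^ U) (a i) b w)).card : ℝ) ≤
      Fintype.card ι / (n : ℝ) ^ U := by
  obtain ⟨B0, h0⟩ := Pool.Agent.Run7.h536.CE.cross_all g hg 1 ∅ (fun _ _ => 0) (fun l hl => absurd hl (notMem_empty l))
    (fun _ => 2) (fun _ => h) (fun _ => le_rfl) (fun _ => hh) (2 * r + 1) (2 * B) C T U (by omega) (by omega)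
  refine ⟨B0 + 1, fun E => ?_⟩
  obtain ⟨k0, h1⟩ := h0 E
  refine ⟨k0 + 2, fun n hn H hH1 hH2 D hD ι _ a ha hE z hz1 hz2 L hL => ?_⟩
  have hn1 : (1 : ℝ) ≤ n := by exact_mod_cast (by omega : 1 ≤ n)
  have hn2 : (2 : ℝ) ≤ n := by exact_mod_cast (by omega : 2 ≤ n)
  have hz2' : 2 ≤ z := by
    have h3 : (2 : ℝ) ≤ z := by
      refine le_trans ?_ hz1
      calc (2 : ℝ) ≤ n := hn2
        _ = (n : ℝ) ^ 1 := (pow_one _).symm
        _ ≤ _ := pow_le_pow_right₀ hn1 (by omega)
    exact_mod_cast h3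
  have key := h1 n (by omega) (fun _ => H) (fun _ => by
      rw [← pow_mul]
      refine hH1.trans (Nat.pow_le_pow_right (by omega) ?_)
      rw [Nat.add_sub_cancel]
      calc r * n ≤ 4 * (r * n) := by omega
        _ = 2 * n * (2 * r) := by ring) (fun _ => by
      rw [Nat.add_sub_cancel, mul_comm 2 r, pow_mul H, mul_comm 2 n, pow_mul g]
      exact Nat.pow_le_pow_left hH2 _) D hD ι (fun _ => a) (fun _ i => (ha i).trans (by
      push_cast
      nlinarith [mul_nonneg (Int.natCast_nonneg B) (Int.natCast_nonneg H)])) (fun _ => hE) (fun _ => 1) (fun _ => one_ne_zero) z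
      (le_trans (pow_le_pow_right₀ hn1 (by omega)) hz1) hz2 L hL
  refine le_trans (Nat.cast_le.2 (card_le_card ?_)) key
  intro i hi
  rw [mem_filter] at hi ⊢
  obtain ⟨_, b, w, hb, hw, hb2⟩ := hi
  refine ⟨mem_univ _, fun _ => Polynomial.C (a i) * Polynomial.X ^ 2 + Polynomial.C b * Polynomial.X, w, ?_, ?_, ?_, hw, ?_⟩
  · intro _
    exact quad_degree _ _
  · intro _
    rw [coeff_add, coeff_C_mul, coeff_C_mul, coeff_X_pow, coeff_X, if_pos rfl, if_neg (by norm_num)]
    ring
  · intro _ m hm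
    have hm1 : m ∈ restricted g D n := hm
    unfold restricted at hm1
    rw [mem_filter, mem_range] at hm1
    have hm' : (m : ℤ) ≤ (g : ℤ) ^ n := by exact_mod_cast hm1.1.le
    have hm0 : (0 : ℤ) ≤ m := Int.natCast_nonneg m
    have hG0 : (0 : ℤ) ≤ (g : ℤ) ^ n := pow_nonneg (Int.natCast_nonneg g) n
    have hH0 : (0 : ℤ) ≤ H := Int.natCast_nonneg H
    have hB0 : (0 : ℤ) ≤ B := Int.natCast_nonneg B
    simp only [eval_add, eval_mul, eval_C, eval_pow, eval_X]
    have e1 : |a i * (m : ℤ) ^ 2| ≤ B * H * ((g : ℤ) ^ n) ^ 2 := by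
      rw [abs_mul, abs_of_nonneg (pow_nonneg hm0 2)]
      exact mul_le_mul (ha i) (pow_le_pow_left₀ hm0 hm' 2) (pow_nonneg hm0 2) (by positivity)
    have e2 : |b * (m : ℤ)| ≤ B * (H * (g : ℤ) ^ n) * (g : ℤ) ^ n := by
      rw [abs_mul, abs_of_nonneg hm0]
      exact mul_le_mul hb hm' hm0 (by positivity)
    refine (abs_add_le _ _).trans ((add_le_add e1 e2).trans (le_of_eq ?_))
    push_cast
    rw [pow_mul' (g : ℤ) 2 n]
    ring
  · rw [Fin.prod_univ_one]
    refine lt_of_lt_of_le hb2 (Nat.cast_le.2 ?_)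
    unfold exceptions Pool.Agent.Run7.h536.CE.exc
    have hN2 : (0 : ℤ) ≤ (((H * g ^ (2 * n) : ℕ)) : ℤ) := Int.natCast_nonneg _
    have hbig : ((B * (H * g ^ (2 * n)) : ℕ) : ℤ) ≤ ((2 * B : ℕ) : ℤ) * (((H * g ^ (2 * n) : ℕ)) : ℤ) := by
      rw [Nat.cast_mul]
      exact mul_le_mul_of_nonneg_right (by exact_mod_cast (by omega : B ≤ 2 * B)) hN2
    have hmod : ∀ x : ℤ, Pool.Agent.Run7.h536.RD.AM z x = model z x := fun x => Pool.Agent.Run7.h536.MT.AM_eq z hz2' x
    have hL' : ∀ n, Pool.Agent.TH872.Sq.th n ≤ L n ∧ L n ≤ ArithmeticFunction.vonMangoldt n := hL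
    rw [Pool.Agent.Run7.h536.CE.card_fin1 (Icc (-(((2 * B : ℕ) : ℤ) * ((H * g ^ (2 * n) : ℕ) : ℤ))) (((2 * B : ℕ) : ℤ) * ((H * g ^ (2 * n) : ℕ) : ℤ)))
      _ (fun c : ℤ => ∃ M : ℕ, ((restricted g D n).card : ℝ) / (n : ℝ) ^ U < |∑ k ∈ (restricted g D n).filter (fun k => k < M), w k *
      (L (a i * (k : ℤ) ^ 2 + b * k + c).natAbs - model z (a i * (k : ℤ) ^ 2 + b * k + c))|) ?_]
    · apply card_le_card
      intro c hc
      rw [mem_filter, mem_Icc] at hc ⊢
      exact ⟨⟨by linarith [hc.1.1], by linarith [hc.1.2]⟩, hc.2⟩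
    · intro c
      simp only [Fin.prod_univ_one, Pool.Agent.Run7.h536.RD.MA, Pool.Agent.Run7.h536.RD.MM, notMem_empty, if_false,
        Pool.Agent.Run7.h536.CE.AL_natAbs L hL', hmod, eval_add, eval_mul, eval_C, eval_pow, eval_X]
      rfl

end Pool.Agent.Results.MP_d57abb_nt.DigitsAllMiddleCoefficients
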