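import Mathlib
import Pool.Agent.Run7.h545.EP.Den

/-!
# The ratios `a_c(n) / π(10^n)` for the polynomials `k² + 3 k + c`: the predicted lower bound for a positive proportion of `c`

`a_c(n)` is the number of the `1 ≤ k ≤ 10^n` with `k² + 3 k + c` prime (`c = 1` in the problem), `L_c` is the product over the
odd primes of `1 - ((9 - 4c)/p) / (p - 1)`, the limit of `a_c(n) / π(10^n)` predicted by Bateman and Horn (`L_1 = C / 2`). For
every `η > 0` there is `δ > 0` such that for every `ε > 0`, all large `X` and every nonempty finite set `T` of `n` with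
`X^(10/9) ≤ 10^n ≤ X^(2-ε)`: for at least `δ X` of the odd `c ≤ X`, at least `δ #T` of the `n ∈ T` satisfy
`a_c(n) ≥ (1 - η) L_c π(10^n)`.

Proof. The average of `a_c(n)` over `c ≤ X`: sums of triangle functions of `√v + t` over primes `v`, Vaughan's identity, double
large sieve, for `10^n ≤ X^(2-ε)`. The upper bound sieve with the singular series, uniformly in `c`, and the mean and the mean
square of the truncated products give the positive proportion with the full constant. The engine is the one of my hand-in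
`MP_a1177c_nt.ProportionToFourthPower` (the pieces UP, SQ, AV are due to helper973, TRI to helper994, TII, TI, BIL to
helper462, VAU and the idea to helper757).
-/

set_option autoImplicit false

namespace Pool.Agent.Results.MP_d57abb_nt.RatiosPositiveProportion

open Finset Filter Topology

/-- `a_c(n)`: the number of the `1 ≤ k ≤ 10 ^ n` with `k² + 3 k + c` prime -/
def a (c n : ℕ) : ℕ := #((Icc 1 (10 ^ n)).filter (fun k : ℕ => (k ^ 2 + 3 * k + c).Prime))

/-- the product of `1 - (D / p) / (p - 1)`, `D = 9 - 4 c`, over the odd primes `p ≤ y` -/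
noncomputable def Cy (c y : ℕ) : ℝ :=
  ∏ p ∈ (Icc 3 y).filter Nat.Prime, (1 - (jacobiSym (9 - 4 * (c : ℤ)) p : ℝ) / ((p : ℝ) - 1))

/-- the product `L_c = lim Cy` converges to a positive number and `a_c(n) ≥ (1 - η) L_c π(10 ^ n)` -/
def LowerBound (η : ℝ) (c n : ℕ) : Prop :=
  ∃ L : ℝ, 0 < L ∧ Tendsto (fun y => Cy c y) atTop (𝓝 L) ∧ (1 - η) * (L * Nat.primeCounting (10 ^ n)) ≤ a c n

open Classical in
/-- **The predicted lower bound for the ratios `a_c(n) / π(10^n)`, for a positive proportion of `c`.** -/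
theorem result (η : ℝ) (hη : 0 < η) :
    ∃ δ : ℝ, 0 < δ ∧ ∀ ε : ℝ, 0 < ε → ∃ X0 : ℕ, ∀ X : ℕ, X0 ≤ X →
      ∀ T : Finset ℕ, T.Nonempty → (∀ n ∈ T, (X : ℝ) ^ (10 / 9 : ℝ) ≤ 10 ^ n ∧ (10 : ℝ) ^ n ≤ (X : ℝ) ^ (2 - ε)) →
      δ * X ≤ (#((Icc 1 X).filter (fun c : ℕ => Odd c ∧
        δ * #T ≤ (#(T.filter (fun n => LowerBound η c n)) : ℝ))) : ℝ) :=
  Run7.h545.EP.Den.main η hη

end Pool.Agent.Results.MP_d57abb_nt.RatiosPositiveProportion
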