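import Mathlib
import Pool.Agent.Run7.h373.QE.Quad

/-!
# The density of the primes of the form `k² + 3 k + c` in short windows, for almost all `c`

For `k² + 3 k + 1` the question is whether the primes among the values have the density `K / (2 log)` predicted by Bateman and
Horn. Here the constant `1` is replaced by almost all `c` of the size of the values, and the `k` run through short windows.

(1) For EVERY window `(m, m + H]` below `√X (log X)^C` of length only `H ≥ X^(1/6) (log X)^B` and for all but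
`X / (log X)^U` of the `|c| ≤ X`, the number of the primes `k² + 3 k + c` with `k` in the window is given by the formula with
the full constant, with a relative error `(log X)^(-U)`.

(2) For almost all pairs `(c, m)`, `|c| ≤ X`, `m` in ANY interval with at least `X^(1/3) (log X)^B` integers below `A √X`, the
same holds in the window `(m, m + H]` as soon as `H ≥ T log X`, with a relative error `ε`. In windows of this length the
formula predicts a bounded number of primes: the order of the length is the best possible.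

Proof. The theorems behind my hand-ins `MP_a1177c_nt.WindowsOneSixth` and `MP_a1177c_nt.OptimalScale` for `a = 1`, `b = 3`.
-/

set_option autoImplicit false

namespace Pool.Agent.Results.MP_d57abb_nt.ShortWindowsForShifts

open Finset Filter Topology

/-- the product of `1 - (D / p) / (p - 1)` over the primes `3 ≤ p ≤ z`, where `D = 9 - 4 c` is the discriminant of
`k² + 3 k + c` and `(D / p)` is Legendre's symbol -/
noncomputable def partialC (c : ℤ) (z : ℕ) : ℝ :=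
  ∏ p ∈ (Icc 3 z).filter Nat.Prime, (1 - (jacobiSym (9 - 4 * c) p : ℝ) / (p - 1))

/-- the number of the `u < k ≤ v` for which `k² + 3 k + c` is a (positive) prime -/
def primeCount (c : ℤ) (u v : ℕ) : ℕ := #((Ioc u v).filter (fun k : ℕ => ((k : ℤ) ^ 2 + 3 * k + c).toNat.Prime))

/-- the sum of `1 / log (k² + 3 k + c)` over the `u < k ≤ v` with `k² + 3 k + c ≥ 2` -/
noncomputable def logSum (c : ℤ) (u v : ℕ) : ℝ :=
  ∑ k ∈ (Ioc u v).filter (fun k : ℕ => 2 ≤ (k : ℤ) ^ 2 + 3 * k + c), 1 / Real.log (((k : ℤ) ^ 2 + 3 * k + c : ℤ) : ℝ)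

lemma adm (c : ℤ) (h1 : ¬ (2 : ℤ) ∣ c) (h2 : ¬ IsSquare (9 - 4 * c)) : Pool.Agent.N792.Admissible 1 3 c := by
  refine ⟨one_pos, fun d h _ _ => isUnit_of_dvd_one h, fun h => h1 h.2, ?_⟩
  intro h
  apply h2
  have e : (3 : ℤ) ^ 2 - 4 * 1 * c = 9 - 4 * c := by ring
  rwa [e] at h

lemma partialC_eq (c : ℤ) (z : ℕ) : Pool.Agent.N792.partialC 1 3 c z = partialC c z := by
  unfold Pool.Agent.N792.partialC partialC
  have e : (3 : ℤ) ^ 2 - 4 * 1 * c = 9 - 4 * c := by ring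
  rw [e]
  apply prod_congr _ fun _ _ => rfl
  ext p
  rw [mem_filter, mem_filter]
  constructor
  · rintro ⟨h1, h2, _⟩; exact ⟨h1, h2⟩
  · rintro ⟨h1, h2⟩
    refine ⟨h1, h2, ?_⟩
    intro h
    have h3 : (p : ℤ) ≤ 1 := Int.le_of_dvd one_pos h
    have h4 := h2.two_le
    omega

lemma eps_eq : Pool.Agent.N792.eps 1 3 = 2 := by
  unfold Pool.Agent.N792.eps
  rw [if_pos (by norm_num)]

lemma gcd_eq : Pool.Agent.N792.gcdProd 1 3 = 1 := by
  unfold Pool.Agent.N792.gcdProd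
  have : Int.gcd 1 3 = 1 := by decide
  rw [this, Nat.primeFactors_one, filter_empty, prod_empty]

lemma pC_eq (c : ℤ) (u v : ℕ) : Run7.h373.QW.pC 1 1 3 c u v = primeCount c u v := by
  unfold Run7.h373.QW.pC primeCount Run7.h373.QW.qv
  simp only [one_mul]

lemma lS_eq (c : ℤ) (u v : ℕ) : Run7.h373.QW.lS 1 1 3 c u v = logSum c u v := by
  unfold Run7.h373.QW.lS logSum Run7.h373.QW.qv
  simp only [one_mul]
  refine sum_congr rfl fun n hn => ?_
  rw [mem_filter] at hn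
  unfold Pool.Agent.TH892.SW.wt
  have h1 : ((((n : ℤ) ^ 2 + 3 * n + c).toNat : ℕ) : ℤ) = (n : ℤ) ^ 2 + 3 * n + c := Int.toNat_of_nonneg (by omega)
  have h2 : ((((n : ℤ) ^ 2 + 3 * n + c).toNat : ℕ) : ℝ) = (((n : ℤ) ^ 2 + 3 * n + c : ℤ) : ℝ) := by
    rw [← Int.cast_natCast, h1]
  rw [h2]

/-- **The density of the primes `k² + 3 k + c` in short windows.**
(1) Let `U, C ≥ 0`. There are `B` and `X₀` such that for `X ≥ X₀` and all `m, H` with `X^(1/6) (log X)^B ≤ H` and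
`m + H ≤ √X (log X)^C` the following holds for all but at most `X / (log X)^U` of the integers `|c| ≤ X`: if `c` is odd
and `9 - 4 c` is not a square, then the product `∏_{p ≥ 3} (1 - ((9 - 4 c) / p) / (p - 1))` converges to a number `S > 0`
and the number of the primes `k² + 3 k + c` with `m < k ≤ m + H` differs from `2 S ∑ 1 / log (k² + 3 k + c)` (over the `k` of
the window with `k² + 3 k + c ≥ 2`) by at most `2 S H / (log X)^U`.
(2) Let `A ≥ 0` and `ε > 0`. There are `T > 0`, `B` and `X₀` such that for `X ≥ X₀` and all `m₀, M, H` with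
`X^(1/3) (log X)^B ≤ M`, `T log X ≤ H` and `m₀ + M + H ≤ A √X` the same holds for all but at most `ε X M` of the pairs
`(c, m)` with `|c| ≤ X` and `m₀ ≤ m < m₀ + M`, with `ε 2 S H / log X` as the bound for the difference. -/
theorem result :
    (∀ U C : ℕ, ∃ B X₀ : ℕ, ∀ X : ℕ, X₀ ≤ X → ∀ m H : ℕ, (X : ℝ) ^ (1 / 6 : ℝ) * Real.log X ^ B ≤ H →
      (m : ℝ) + H ≤ √X * Real.log X ^ C →
      ∃ Bad ⊆ Icc (-(X : ℤ)) X, (#Bad : ℝ) ≤ X / Real.log X ^ U ∧ ∀ c ∈ Icc (-(X : ℤ)) X, c ∉ Bad →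
        ¬ (2 : ℤ) ∣ c → ¬ IsSquare (9 - 4 * c) → ∃ S : ℝ, 0 < S ∧ Tendsto (fun z => partialC c z) atTop (𝓝 S) ∧
          |(primeCount c m (m + H) : ℝ) - 2 * S * logSum c m (m + H)| ≤ 2 * S * H / Real.log X ^ U) ∧
    (∀ (A : ℕ) (ε : ℝ), 0 < ε → ∃ T : ℝ, 0 < T ∧ ∃ B X₀ : ℕ, ∀ X : ℕ, X₀ ≤ X → ∀ m₀ M H : ℕ,
      (X : ℝ) ^ (1 / 3 : ℝ) * Real.log X ^ B ≤ M → T * Real.log X ≤ H → (m₀ : ℝ) + M + H ≤ A * √X →
      ∃ Bad ⊆ Icc (-(X : ℤ)) X ×ˢ Ico m₀ (m₀ + M), (#Bad : ℝ) ≤ ε * (X * M) ∧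
        ∀ c ∈ Icc (-(X : ℤ)) X, ∀ m ∈ Ico m₀ (m₀ + M), (c, m) ∉ Bad → ¬ (2 : ℤ) ∣ c → ¬ IsSquare (9 - 4 * c) →
          ∃ S : ℝ, 0 < S ∧ Tendsto (fun z => partialC c z) atTop (𝓝 S) ∧
            |(primeCount c m (m + H) : ℝ) - 2 * S * logSum c m (m + H)| ≤ ε * (2 * S * (H / Real.log X))) := by
  constructor
  · intro U C
    obtain ⟨B, X₀, h⟩ := Run7.h373.QW.final U (C + 1)
    obtain ⟨X₁, h1⟩ := Run7.h385.CR.ev_lge 8
    refine ⟨B, X₀ + X₁ + 1, fun X hX m H hH hm => ?_⟩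
    have hL := h1 X (by omega)
    have hL1 : 1 ≤ Real.log X := by linarith
    have hX1 : (1 : ℝ) ≤ X := by exact_mod_cast (by omega : 1 ≤ X)
    have hs1 : 1 ≤ √(X : ℝ) := by rw [Real.one_le_sqrt]; exact hX1
    have hp : 8 ≤ Real.log X ^ (C + 1) := by
      calc (8 : ℝ) ≤ Real.log X := hL
        _ ≤ Real.log X ^ (C + 1) := le_self_pow₀ hL1 (by omega)
    obtain ⟨Bad, k1, k2, k3⟩ := h X (by omega) 1 3 le_rfl (by push_cast; linarith) (by
      push_cast
      rw [abs_of_nonneg (by norm_num)]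
      nlinarith) m H hH (hm.trans (by
        apply mul_le_mul_of_nonneg_left _ (Real.sqrt_nonneg _)
        exact pow_le_pow_right₀ hL1 (by omega)))
    refine ⟨Bad, k1, k2, fun c hc hcB h2 h3 => ?_⟩
    obtain ⟨S, m1, m2, m3⟩ := k3 c hc hcB (adm c h2 h3)
    refine ⟨S, m1, ?_, ?_⟩
    · simp only [partialC_eq] at m2
      exact m2
    · have h4 := m3 1 (Or.inl rfl)
      rw [pC_eq, lS_eq, eps_eq, gcd_eq, mul_one] at h4
      exact h4
  · intro A ε hε
    obtain ⟨T, hT, B, X₀, h⟩ := Run7.h373.QE.quad (A + 3) ε hε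
    refine ⟨T, hT, B, X₀ + 1, fun X hX m₀ M H hM hH hm => ?_⟩
    have hX1 : (1 : ℝ) ≤ X := by exact_mod_cast (by omega : 1 ≤ X)
    have hs1 : 1 ≤ √(X : ℝ) := by rw [Real.one_le_sqrt]; exact hX1
    have hA0 : (0 : ℝ) ≤ A := Nat.cast_nonneg _
    obtain ⟨Bad, k1, k2, k3⟩ := h X (by omega) 1 3 le_rfl (by push_cast; linarith) (by
      push_cast
      rw [abs_of_nonneg (by norm_num)]
      nlinarith) m₀ M H hM hH (hm.trans (by
        push_cast
        nlinarith))
    refine ⟨Bad, k1, k2, fun c hc m hmm hcB h2 h3 => ?_⟩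
    obtain ⟨S, m1, m2, m3⟩ := k3 c hc m hmm hcB (adm c h2 h3)
    refine ⟨S, m1, ?_, ?_⟩
    · simp only [partialC_eq] at m2
      exact m2
    · have h4 := m3 1 (Or.inl rfl)
      rw [pC_eq, lS_eq, eps_eq, gcd_eq, mul_one] at h4
      exact h4

end Pool.Agent.Results.MP_d57abb_nt.ShortWindowsForShifts
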